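import Mathlib
import Pool.Agent.Lib.MP_574c26_nt.KM9

namespace Pool.Agent.Results.MP_574c26_nt.QuasipolyHolds

open Filter

/-- The restricted sumset: all sums `a + a'` with `a, a' ∈ A` and `a ≠ a'`. -/
def restrictedSumset (A : Finset ℕ) : Finset ℕ :=
  A.offDiag.image (fun q => q.1 + q.2)

/-- For every `ε > 0` and all large `N`, every partition of `{1, …, N}` into at most
`exp ((log N)^(1/9) / 2000)` parts has restricted sumsets that together contain at least
`(1 - ε) N` integers. -/
theorem result (ε : ℝ) (hε : 0 < ε) :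
    ∀ᶠ N : ℕ in atTop, ∀ P : Finpartition (Finset.Icc 1 N),
      (P.parts.card : ℝ) ≤ Real.exp (Real.log N ^ (1 / 9 : ℝ) / 2000) →
      (1 - ε) * N ≤ ((P.parts.biUnion restrictedSumset).card : ℝ) := by
  have hx : Tendsto (fun N : ℕ => Real.log N ^ (1 / 9 : ℝ)) atTop atTop :=
    (tendsto_rpow_atTop (by norm_num)).comp (Real.tendsto_log_atTop.comp tendsto_natCast_atTop_atTop)
  filter_upwards [hx.eventually_ge_atTop 40000, hx.eventually_ge_atTop (120000 / ε),
    eventually_ge_atTop 1] with N h1 h2 hN P hP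
  classical
  have hN' : (1 : ℝ) ≤ N := by exact_mod_cast hN
  have hx9 : (Real.log N ^ (1 / 9 : ℝ)) ^ 9 = Real.log N := by
    rw [← Real.rpow_natCast, ← Real.rpow_mul (Real.log_nonneg hN')]; norm_num
  generalize Real.log N ^ (1 / 9 : ℝ) = x at *
  let p : ℕ := 2 * ⌊x / 2000⌋₊
  have p1 : (p : ℝ) ≤ x / 1000 := by
    have := Nat.floor_le (show 0 ≤ x / 2000 by linarith)
    simp only [p]; push_cast; linarith
  have p2 : x / 1000 - 2 ≤ p := by
    have := Nat.lt_floor_add_one (x / 2000)
    simp only [p]; push_cast; linarith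
  have p3 : 32 ≤ p := by
    have : (32 : ℝ) ≤ p := by linarith
    exact_mod_cast this
  have hbig : (2 : ℝ) ^ (10 ^ 24 * p ^ 9) ≤ N := by
    refine (Pool.Agent.Lib.MP_574c26_nt.KM.two_pow_le_exp _).trans ?_
    rw [← Real.exp_log (show (0 : ℝ) < N by linarith), ← hx9]
    apply Real.exp_le_exp.mpr
    have : (p : ℝ) ^ 9 ≤ (x / 1000) ^ 9 := by gcongr
    have : 0 ≤ x ^ 9 := by positivity
    push_cast
    linarith [div_pow x 1000 9]
  set S := P.parts.biUnion restrictedSumset with hS
  let T := (Finset.Icc 1 N).filter fun b => b + b ∉ S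
  have hT : ∀ A ∈ P.parts, ((A ∩ T).card : ℝ) ≤ (2 * N + 1) / 2 ^ p := by
    intro A hA
    rw [le_div_iff₀ (by positivity)]
    refine Pool.Agent.Lib.MP_574c26_nt.KM.km_nat N (A ∩ T)
      (Finset.inter_subset_left.trans (P.le hA)) ?_ p (even_two_mul _) p3 hbig
    intro a ha b hb c hc h
    by_contra hab
    rw [Finset.mem_coe, Finset.mem_inter] at ha hb hc
    apply (Finset.mem_filter.mp hb.2).2
    refine Finset.mem_biUnion.mpr ⟨A, hA, Finset.mem_image.mpr ⟨(a, c), ?_, h⟩⟩
    exact Finset.mem_offDiag.mpr ⟨ha.1, hc.1, by simp only; omega⟩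
  have hT1 : (T.card : ℝ) ≤ P.parts.card * ((2 * N + 1) / 2 ^ p) := by
    have a : T ⊆ P.parts.biUnion fun A => A ∩ T := by
      intro b hb
      obtain ⟨A, hA, hbA⟩ := P.exists_mem (Finset.mem_filter.mp hb).1
      exact Finset.mem_biUnion.mpr ⟨A, hA, Finset.mem_inter.mpr ⟨hbA, hb⟩⟩
    have b := (Nat.cast_le (α := ℝ)).mpr ((Finset.card_le_card a).trans Finset.card_biUnion_le)
    push_cast at b
    exact b.trans (by simpa using Finset.sum_le_card_nsmul _ _ _ hT)
  have hT2 : (N : ℝ) ≤ T.card + S.card := by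
    have a := Finset.card_filter_add_card_filter_not (s := Finset.Icc 1 N) fun b => b + b ∉ S
    have b : ((Finset.Icc 1 N).filter fun b => ¬ (b + b ∉ S)).card ≤ S.card := by
      apply Finset.card_le_card_of_injOn (fun b => b + b)
      · intro b hb
        simpa using (Finset.mem_filter.mp hb).2
      · intro a _ b _ h
        simp only at h; omega
    rw [Nat.card_Icc] at a
    have : N ≤ T.card + S.card := by simp only [T]; omega
    exact_mod_cast this
  have hp : Real.exp (x / 2000) * 3 ≤ ε * 2 ^ p := by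
    have a1 : Real.exp (0.6 * p) ≤ 2 ^ p := by
      rw [mul_comm, Real.exp_nat_mul]
      gcongr
      rw [← Real.exp_log two_pos]
      exact Real.exp_le_exp.mpr (by linarith [Real.log_two_gt_d9])
    have a2 : Real.exp (x / 2000) * Real.exp (x / 40000) ≤ Real.exp (0.6 * p) := by
      rw [← Real.exp_add]; apply Real.exp_le_exp.mpr; linarith
    have a3 := Real.add_one_le_exp (x / 40000)
    rw [div_le_iff₀ hε] at h2
    have a4 : 3 ≤ ε * Real.exp (x / 40000) := by nlinarith
    nlinarith [Real.exp_pos (x / 2000)]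
  have : (T.card : ℝ) ≤ ε * N := by
    refine hT1.trans ?_
    rw [← mul_div_assoc, div_le_iff₀ (by positivity)]
    calc _ ≤ Real.exp (x / 2000) * (3 * N) := by gcongr; linarith
      _ ≤ _ := by nlinarith
  linarith

end Pool.Agent.Results.MP_574c26_nt.QuasipolyHolds
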