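import Mathlib
import Pool.Agent.Lib.MP_574c26_nt.Asymp2

namespace Pool.Agent.Results.MP_574c26_nt.TwoThirdsFailure

open Filter

/-- The restricted sumset: all sums `a + a'` with `a, a' ∈ A` and `a ≠ a'`. -/
def restrictedSumset (A : Finset ℕ) : Finset ℕ :=
  A.offDiag.image (fun q => q.1 + q.2)

/-- For every `ε > 0`, for all large `N` and every `k` with
`exp (1000 (log N)^(2/3) (log log N)^(1/3)) ≤ k ≤ N`, the interval `{1, …, N}` has a partition
into exactly `k` nonempty parts whose restricted sumsets together contain fewer than `ε N`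
integers. -/
theorem result (ε : ℝ) (hε : 0 < ε) :
    ∀ᶠ N : ℕ in atTop, ∀ k : ℕ,
      Real.exp (1000 * Real.log N ^ (2 / 3 : ℝ) * Real.log (Real.log N) ^ (1 / 3 : ℝ)) ≤ k →
      k ≤ N →
      ∃ P : Finpartition (Finset.Icc 1 N), P.parts.card = k ∧
        ((P.parts.biUnion restrictedSumset).card : ℝ) < ε * N := by
  filter_upwards [Pool.Agent.Lib.MP_574c26_nt.colouring_eventually_two_thirds ε hε]
    with N hN k hk1 hk2
  obtain ⟨d, L, c, S, h1, h2, h3⟩ := hN
  classical
  obtain ⟨P, hP1, hP2⟩ := Pool.Agent.Lib.MP_574c26_nt.exists_partition_of_colouring N k c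
    (by
      have h4 := h1.trans hk1
      have h5 : ((Finset.Icc 1 N).image c).card ≤ k := by exact_mod_cast h4
      convert h5) hk2
  refine ⟨P, hP1, lt_of_le_of_lt ?_ h2⟩
  have hsub : P.parts.biUnion restrictedSumset ⊆ S := by
    intro s hs
    obtain ⟨A, hA, hs⟩ := Finset.mem_biUnion.mp hs
    obtain ⟨q, hq, rfl⟩ := Finset.mem_image.mp hs
    obtain ⟨hq1, hq2, hq3⟩ := Finset.mem_offDiag.mp hq
    exact h3 q.1 (P.le hA hq1) q.2 (P.le hA hq2) hq3 (hP2 A hA q.1 hq1 q.2 hq2 hq3)
  exact_mod_cast Finset.card_le_card hsub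

end Pool.Agent.Results.MP_574c26_nt.TwoThirdsFailure
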